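import Mathlib
import Pool.Agent.H34.L.Q236.TP.NP

/-!
# Decay of correlations in the uniform linear extension of a thin poset
-/

set_option autoImplicit false

open Finset

namespace Pool.Agent.Q236.TP

open Pool.Agent.H13R3.WB Pool.Agent.H931R3.Bal

variable {K : ℕ}

/-- the upper sets `S` of `[0, n)` with `i` elements outside -/
structure Fil (R : NP K) (n : ℕ) (i : ℕ) (S : Finset ℕ) : Prop where
  sub : S ⊆ range n
  up : ∀ t ∈ S, ∀ u < n, R.r t u → u ∈ S
  card : S.card + i = n

lemma Fil.le {R : NP K} {n i : ℕ} {S : Finset ℕ} (h : Fil R n i S) : i ≤ n := by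
  have := h.card; omega

/-- a missing element is small -/
lemma Fil.lt_of_notMem {R : NP K} {n i : ℕ} {S : Finset ℕ} (h : Fil R n i S) {u : ℕ} (hu : u < n)
    (hS : u ∉ S) : u < i + K := by
  have hK := R.pos
  have h1 : range (u + 1 - K) ⊆ range n \ S := by
    intro t ht
    rw [mem_range] at ht
    rw [mem_sdiff, mem_range]
    refine ⟨by omega, fun h2 => hS (h.up t h2 u hu (R.loc (by omega)))⟩
  have h2 := card_le_card h1
  rw [card_range, card_sdiff_of_subset h.sub, card_range] at h2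
  have := h.card
  omega

/-- an element that is present is large -/
lemma Fil.lt_of_mem {R : NP K} {n i : ℕ} {S : Finset ℕ} (h : Fil R n i S) {t : ℕ} (hS : t ∈ S) :
    i < t + K := by
  have hK := R.pos
  have ht : t < n := mem_range.1 (h.sub hS)
  have h1 : range n \ S ⊆ (range (min n (t + K))).erase t := by
    intro u hu
    rw [mem_sdiff, mem_range] at hu
    rw [mem_erase, mem_range]
    refine ⟨fun h2 => hu.2 (h2 ▸ hS), ?_⟩
    rw [lt_min_iff]
    refine ⟨hu.1, ?_⟩
    by_contra h3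
    exact hu.2 (h.up t hS u hu.1 (R.loc (by omega)))
  have h2 := card_le_card h1
  rw [card_erase_of_mem (by rw [mem_range]; omega), card_range, card_sdiff_of_subset h.sub,
    card_range] at h2
  have := h.card
  omega

/-- later upper sets are contained in earlier ones -/
lemma Fil.subset {R : NP K} {n i j : ℕ} {S T : Finset ℕ} (h : Fil R n i S) (h' : Fil R n j T)
    (hij : i + 2 * K ≤ j) : T ⊆ S := by
  intro t ht
  by_contra hS
  have h1 := h.lt_of_notMem (mem_range.1 (h'.sub ht)) hS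
  have h2 := h'.lt_of_mem ht
  omega

lemma mem_mins {R : NP K} {S : Finset ℕ} {z : ℕ} : z ∈ mins R S ↔ z ∈ S ∧ ∀ t ∈ S, ¬ R.r t z := by
  classical
  unfold mins
  rw [mem_filter]

lemma Fil.erase {R : NP K} {n i : ℕ} {S : Finset ℕ} (h : Fil R n i S) {z : ℕ}
    (hz : z ∈ mins R S) : Fil R n (i + 1) (S.erase z) := by
  rw [mem_mins] at hz
  refine ⟨(erase_subset _ _).trans h.sub, ?_, ?_⟩
  · intro t ht u hu hr
    rw [mem_erase] at ht ⊢
    exact ⟨fun h2 => hz.2 t ht.2 (h2 ▸ hr), h.up t ht.2 u hu hr⟩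
  · rw [card_erase_of_mem hz.1]
    have := h.card
    have : 0 < S.card := card_pos.2 ⟨z, hz.1⟩
    omega

lemma mins_nonempty (R : NP K) {S : Finset ℕ} (hS : S.Nonempty) : (mins R S).Nonempty := by
  refine ⟨S.min' hS, mem_mins.2 ⟨S.min'_mem hS, fun t ht hr => ?_⟩⟩
  have h1 := R.lt hr
  have h2 := S.min'_le t ht
  omega

lemma card_mins_le (R : NP K) (S : Finset ℕ) : (mins R S).card ≤ K := by
  rcases (mins R S).eq_empty_or_nonempty with h | h
  · rw [h]; simp
  · have h1 : mins R S ⊆ Finset.Ico ((mins R S).min' h) ((mins R S).min' h + K) := by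
      intro z hz
      rw [mem_Ico]
      refine ⟨(mins R S).min'_le z hz, ?_⟩
      by_contra h2
      have h3 := (mem_mins.1 ((mins R S).min'_mem h)).1
      exact (mem_mins.1 hz).2 _ h3 (R.loc (by omega))
    have h2 := card_le_card h1
    rwa [Nat.card_Ico, Nat.add_sub_cancel_left] at h2

/-- between two upper sets one can remove a minimal element -/
lemma exists_step {R : NP K} {n i j : ℕ} {S T : Finset ℕ} (h : Fil R n i S) (h' : Fil R n j T)
    (hTS : T ⊆ S) (hij : i < j) : ∃ z ∈ mins R S, T ⊆ S.erase z := by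
  have hne : (S \ T).Nonempty := by
    rw [← card_pos, card_sdiff_of_subset hTS]
    have := h.card; have := h'.card; omega
  refine ⟨(S \ T).min' hne, ?_, ?_⟩
  · have h1 := (S \ T).min'_mem hne
    rw [mem_sdiff] at h1
    refine mem_mins.2 ⟨h1.1, fun t ht hr => ?_⟩
    by_cases htT : t ∈ T
    · exact h1.2 (h'.up t htT _ (mem_range.1 (h.sub h1.1)) hr)
    · have h2 := (S \ T).min'_le t (mem_sdiff.2 ⟨ht, htT⟩)
      have h3 := R.lt hr
      omega
  · intro t ht
    rw [mem_erase]
    refine ⟨fun h2 => ?_, hTS ht⟩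
    have h1 := (S \ T).min'_mem hne
    rw [mem_sdiff] at h1
    exact h1.2 (h2 ▸ ht)

/-- additive functions on upper sets with fewer than `l` elements removed -/
def Addi (R : NP K) (n l : ℕ) (F : Finset ℕ → ℝ) : Prop :=
  ∀ (i : ℕ) (S : Finset ℕ), Fil R n i S → i < l → F S = ∑ z ∈ mins R S, F (S.erase z)

lemma Addi.mono {R : NP K} {n l l' : ℕ} {F : Finset ℕ → ℝ} (h : Addi R n l F) (hl : l' ≤ l) :
    Addi R n l' F := fun i S hS hi => h i S hS (by omega)

lemma Addi.comb {R : NP K} {n l : ℕ} {F F' : Finset ℕ → ℝ} (h : Addi R n l F)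
    (h' : Addi R n l F') (a b : ℝ) : Addi R n l (fun S => a * F S + b * F' S) := by
  intro i S hS hi
  simp only
  rw [h i S hS hi, h' i S hS hi, mul_sum, mul_sum, ← sum_add_distrib]

/-- nonnegative at level `l` implies nonnegative before -/
lemma Addi.nonneg {R : NP K} {n l : ℕ} {F : Finset ℕ → ℝ} (h : Addi R n l F)
    (h0 : ∀ T, Fil R n l T → 0 ≤ F T) : ∀ (d i : ℕ) (S : Finset ℕ), i + d = l → Fil R n i S →
      0 ≤ F S := by
  intro d
  induction d with
  | zero => intro i S hi hS; exact h0 S (by rw [Nat.add_zero] at hi; rwa [hi] at hS)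
  | succ d ih =>
    intro i S hi hS
    rw [h i S hS (by omega)]
    exact sum_nonneg fun z hz => ih (i + 1) _ (by omega) (hS.erase hz)

/-- monotonicity -/
lemma Addi.le {R : NP K} {n l : ℕ} {F : Finset ℕ → ℝ} (h : Addi R n l F)
    (h0 : ∀ T, Fil R n l T → 0 ≤ F T) {T : Finset ℕ} (hT : Fil R n l T) :
    ∀ (d i : ℕ) (S : Finset ℕ), i + d = l → Fil R n i S → T ⊆ S → F T ≤ F S := by
  intro d
  induction d with
  | zero =>
    intro i S hi hS hTS
    have : T = S := by
      apply eq_of_subset_of_card_le hTS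
      have := hT.card; have := hS.card; omega
    rw [this]
  | succ d ih =>
    intro i S hi hS hTS
    obtain ⟨z, hz, hTz⟩ := exists_step hS hT hTS (by omega)
    rw [h i S hS (by omega)]
    have h1 := ih (i + 1) _ (by omega) (hS.erase hz) hTz
    have h2 : F (S.erase z) ≤ ∑ z ∈ mins R S, F (S.erase z) :=
      single_le_sum (f := fun z => F (S.erase z))
        (fun z hz => h.nonneg h0 d (i + 1) _ (by omega) (hS.erase hz)) hz
    exact h1.trans h2

/-- growth -/
lemma Addi.growth {R : NP K} {n l : ℕ} {F : Finset ℕ → ℝ} (h : Addi R n l F) {M : ℝ} (hM : 0 ≤ M)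
    (h0 : ∀ T, Fil R n l T → F T ≤ M) : ∀ (d i : ℕ) (S : Finset ℕ), i + d = l → Fil R n i S →
      F S ≤ (K : ℝ) ^ d * M := by
  intro d
  induction d with
  | zero =>
    intro i S hi hS
    have := h0 S (by rw [Nat.add_zero] at hi; rwa [hi] at hS)
    simpa using this
  | succ d ih =>
    intro i S hi hS
    rw [h i S hS (by omega)]
    have h1 : ∑ z ∈ mins R S, F (S.erase z) ≤ ∑ _z ∈ mins R S, (K : ℝ) ^ d * M :=
      sum_le_sum fun z hz => ih (i + 1) _ (by omega) (hS.erase hz)
    have h2 : ((mins R S).card : ℝ) ≤ K := by exact_mod_cast card_mins_le R S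
    have h3 : 0 ≤ (K : ℝ) ^ d * M := by positivity
    rw [sum_const, nsmul_eq_mul] at h1
    calc _ ≤ ((mins R S).card : ℝ) * ((K : ℝ) ^ d * M) := h1
      _ ≤ (K : ℝ) * ((K : ℝ) ^ d * M) := mul_le_mul_of_nonneg_right h2 h3
      _ = _ := by ring

/-- the contraction constant -/
noncomputable def th (K : ℕ) : ℝ := 1 / (K : ℝ) ^ (2 * K)

lemma th_pos (R : NP K) : 0 < th K := by
  have : (0 : ℝ) < K := by exact_mod_cast R.pos
  unfold th; positivity

lemma th_le (R : NP K) : th K ≤ 1 := by
  have h : (1 : ℝ) ≤ K := by exact_mod_cast R.pos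
  unfold th
  rw [div_le_one (by positivity)]
  exact one_le_pow₀ h

open Classical in
/-- the upper sets with `i` elements removed -/
noncomputable def lev (R : NP K) (n i : ℕ) : Finset (Finset ℕ) :=
  (range n).powerset.filter (fun S => Fil R n i S)

lemma mem_lev {R : NP K} {n i : ℕ} {S : Finset ℕ} : S ∈ lev R n i ↔ Fil R n i S := by
  classical
  unfold lev
  rw [mem_filter, mem_powerset]
  exact ⟨fun h => h.2, fun h => ⟨h.sub, h⟩⟩

/-- one contraction step -/
theorem contract {R : NP K} {n l : ℕ} {N Q : Finset ℕ → ℝ} (hN : Addi R n l N) (hQ : Addi R n l Q)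
    (hpos : ∀ i S, Fil R n i S → 0 < N S) (hne : ∃ T, Fil R n l T) (r s : ℝ)
    (h : ∀ T, Fil R n l T → r * N T ≤ Q T ∧ Q T ≤ s * N T) :
    ∃ r' s' : ℝ, s' - r' ≤ (1 - th K) * (s - r) ∧ ∀ i, i + 2 * K ≤ l → ∀ S, Fil R n i S →
      r' * N S ≤ Q S ∧ Q S ≤ s' * N S := by
  obtain ⟨T0, hT0⟩ := hne
  obtain ⟨T, hT, hmax⟩ := exists_max_image (lev R n l) N ⟨T0, mem_lev.2 hT0⟩
  rw [mem_lev] at hT
  have hNT := hpos l T hT
  set q := Q T / N T with hq
  have hqT : Q T = q * N T := by rw [hq]; field_simp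
  have hth := th_pos R
  have e1 : Addi R n l (fun S => 1 * Q S + (-r) * N S) := hQ.comb hN 1 (-r)
  have e2 : Addi R n l (fun S => (-1) * Q S + s * N S) := hQ.comb hN (-1) s
  have f1 : ∀ T, Fil R n l T → 0 ≤ 1 * Q T + (-r) * N T := fun T hT => by
    have := (h T hT).1; linarith
  have f2 : ∀ T, Fil R n l T → 0 ≤ (-1) * Q T + s * N T := fun T hT => by
    have := (h T hT).2; linarith
  have hrq : r ≤ q := by
    have := f1 T hT
    rw [hqT] at this
    by_contra hc
    push Not at hc
    nlinarith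
  have hqs : q ≤ s := by
    have := f2 T hT
    rw [hqT] at this
    by_contra hc
    push Not at hc
    nlinarith
  -- level exactly `l - 2K`
  have key : ∀ i, i + 2 * K = l → ∀ S, Fil R n i S →
      (r + th K * (q - r)) * N S ≤ Q S ∧ Q S ≤ (s - th K * (s - q)) * N S := by
    intro i hi S hS
    have hTS : T ⊆ S := hS.subset hT (by omega)
    have g1 := e1.le f1 hT (2 * K) i S hi hS hTS
    have g2 := e2.le f2 hT (2 * K) i S hi hS hTS
    have g3 : N S ≤ (K : ℝ) ^ (2 * K) * N T :=
      hN.growth hNT.le (fun T' hT' => hmax T' (mem_lev.2 hT')) (2 * K) i S hi hS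
    have g4 : th K * N S ≤ N T := by
      unfold th
      rw [one_div, inv_mul_le_iff₀ (by
        have : (0 : ℝ) < K := by exact_mod_cast R.pos
        positivity)]
      exact g3
    rw [hqT] at g1 g2
    constructor
    · nlinarith [mul_le_mul_of_nonneg_left g4 (sub_nonneg.2 hrq)]
    · nlinarith [mul_le_mul_of_nonneg_left g4 (sub_nonneg.2 hqs)]
  refine ⟨r + th K * (q - r), s - th K * (s - q), by ring_nf; linarith, ?_⟩
  intro i hi S hS
  have hl : l - 2 * K ≤ l := by omega
  have e1' : Addi R n (l - 2 * K) (fun S => 1 * Q S + (-(r + th K * (q - r))) * N S) :=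
    (hQ.comb hN 1 _).mono hl
  have e2' : Addi R n (l - 2 * K) (fun S => (-1) * Q S + (s - th K * (s - q)) * N S) :=
    (hQ.comb hN (-1) _).mono hl
  have g1 := e1'.nonneg (fun T hT => by
    have := (key (l - 2 * K) (by omega) T hT).1; linarith) (l - 2 * K - i) i S (by omega) hS
  have g2 := e2'.nonneg (fun T hT => by
    have := (key (l - 2 * K) (by omega) T hT).2; linarith) (l - 2 * K - i) i S (by omega) hS
  constructor
  · linarith
  · linarith

/-- iterated contraction -/
theorem contract_iter {R : NP K} {n : ℕ} {N Q : Finset ℕ → ℝ}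
    (hpos : ∀ i S, Fil R n i S → 0 < N S) (r s : ℝ) (hrs : r ≤ s) : ∀ (j l : ℕ),
    Addi R n l N → Addi R n l Q → (∀ i ≤ l, ∃ T, Fil R n i T) →
    (∀ T, Fil R n l T → r * N T ≤ Q T ∧ Q T ≤ s * N T) →
    ∃ r' s' : ℝ, s' - r' ≤ (1 - th K) ^ j * (s - r) ∧ ∀ i, i + 2 * K * j ≤ l → ∀ S, Fil R n i S →
      r' * N S ≤ Q S ∧ Q S ≤ s' * N S := by
  intro j
  induction j with
  | zero =>
    intro l hN hQ _ h
    refine ⟨r, s, by simp, ?_⟩
    intro i hi S hS
    have e1 : Addi R n l (fun S => 1 * Q S + (-r) * N S) := hQ.comb hN 1 (-r)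
    have e2 : Addi R n l (fun S => (-1) * Q S + s * N S) := hQ.comb hN (-1) s
    have g1 := e1.nonneg (fun T hT => by have := (h T hT).1; linarith) (l - i) i S (by omega) hS
    have g2 := e2.nonneg (fun T hT => by have := (h T hT).2; linarith) (l - i) i S (by omega) hS
    constructor
    · linarith
    · linarith
  | succ j ih =>
    intro l hN hQ hne h
    obtain ⟨r1, s1, h1, h2⟩ := ih l hN hQ hne h
    by_cases hl : 2 * K * (j + 1) ≤ l
    · have e : 2 * K * (j + 1) = 2 * K * j + 2 * K := by ring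
      obtain ⟨r2, s2, h3, h4⟩ := contract (l := l - 2 * K * j) (hN.mono (by omega))
        (hQ.mono (by omega)) hpos (hne _ (by omega)) r1 s1
        (fun T hT => h2 (l - 2 * K * j) (by omega) T hT)
      refine ⟨r2, s2, ?_, fun i hi S hS => h4 i (by omega) S hS⟩
      have h5 : 0 ≤ 1 - th K := by have := th_le R; linarith
      calc s2 - r2 ≤ (1 - th K) * (s1 - r1) := h3
        _ ≤ (1 - th K) * ((1 - th K) ^ j * (s - r)) := mul_le_mul_of_nonneg_left h1 h5
        _ = _ := by ring
    · refine ⟨0, 0, ?_, fun i hi => absurd hi (by omega)⟩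
      have h5 : 0 ≤ 1 - th K := by have := th_le R; linarith
      have : 0 ≤ (1 - th K) ^ (j + 1) * (s - r) := mul_nonneg (by positivity) (by linarith)
      linarith

end Pool.Agent.Q236.TP
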