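import Mathlib
import Pool.Agent.H34.L.Q236.TP.Pump

/-!
# Thin posets as posets on an interval; small posets with almost no larger balance constant
-/

set_option autoImplicit false

open Finset

namespace Pool.Agent.Q236.TP

open Pool.Agent.H13R3.WB Pool.Agent.H931R3.Bal

/-- every element is incomparable to fewer than `k` elements -/
def Thn (P : Type) [PartialOrder P] (k : ℕ) : Prop :=
  ∀ x : P, Nat.card {y : P // ¬ x ≤ y ∧ ¬ y ≤ x} < k

section lab

variable {P : Type} [Fintype P] [PartialOrder P] {n k : ℕ}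

lemma le_of_dist (hk : Thn P k) (f : LEn P n) {i j : Fin n}
    (hij : (i : ℕ) + 2 * k ≤ j) : f.1.symm i ≤ f.1.symm j := by
  classical
  by_contra h
  set x := f.1.symm i with hx
  set y := f.1.symm j with hy
  have hfx : f.1 x = i := by rw [hx]; simp
  have hfy : f.1 y = j := by rw [hy]; simp
  have hx0 := hk x
  have hy0 := hk y
  rw [Nat.card_eq_fintype_card, Fintype.card_subtype] at hx0 hy0
  have hsub : (Finset.Ioo i j).map f.1.symm.toEmbedding ⊆
      univ.filter (fun z => ¬ x ≤ z ∧ ¬ z ≤ x) ∪ univ.filter (fun z => ¬ y ≤ z ∧ ¬ z ≤ y) := by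
    intro z hz
    rw [mem_map] at hz
    obtain ⟨t, ht, rfl⟩ := hz
    rw [mem_Ioo] at ht
    simp only [Equiv.coe_toEmbedding]
    have h1 : ¬ f.1.symm t ≤ x := by
      intro h2
      have h3 := f.2 h2
      rw [hfx, Equiv.apply_symm_apply] at h3
      exact absurd ht.1 (not_lt.2 h3)
    have h2 : ¬ y ≤ f.1.symm t := by
      intro h2
      have h3 := f.2 h2
      rw [hfy, Equiv.apply_symm_apply] at h3
      exact absurd ht.2 (not_lt.2 h3)
    rw [mem_union, mem_filter, mem_filter]
    by_cases h3 : x ≤ f.1.symm t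
    · right
      refine ⟨mem_univ _, h2, fun h4 => h (h3.trans h4)⟩
    · left
      exact ⟨mem_univ _, h3, h1⟩
  have h1 := card_le_card hsub
  rw [card_map, Fin.card_Ioo] at h1
  have h2 := card_union_le (univ.filter (fun z => ¬ x ≤ z ∧ ¬ z ≤ x))
    (univ.filter (fun z => ¬ y ≤ z ∧ ¬ z ≤ y))
  omega

/-- the poset in terms of a linear extension -/
def lab (hk : Thn P k) (hk1 : 1 ≤ k) (f : LEn P n) : NP (2 * k) where
  r i j := i < j ∧ ∀ (hi : i < n) (hj : j < n), f.1.symm ⟨i, hi⟩ < f.1.symm ⟨j, hj⟩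
  lt h := h.1
  tr := by
    rintro i j l ⟨h1, h2⟩ ⟨h3, h4⟩
    exact ⟨h1.trans h3, fun hi hl => (h2 hi (by omega)).trans (h4 (by omega) hl)⟩
  loc := by
    intro i j hij
    refine ⟨by omega, fun hi hj => lt_of_le_of_ne (le_of_dist hk f hij) ?_⟩
    intro h
    have := f.1.symm.injective h
    rw [Fin.mk.injEq] at this
    omega

/-- the isomorphism -/
def labIso (hk : Thn P k) (hk1 : 1 ≤ k) (f : LEn P n) : P ≃o Win (lab hk hk1 f) 0 n where
  toFun x := ⟨(f.1 x : ℕ), by rw [mem_Ico]; exact ⟨Nat.zero_le _, (f.1 x).2⟩⟩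
  invFun y := f.1.symm ⟨y.val, win_hi y⟩
  left_inv x := by simp
  right_inv y := by apply Win.eq; simp
  map_rel_iff' := by
    intro x y
    show (((f.1 x : ℕ) = (f.1 y : ℕ)) ∨ (lab hk hk1 f).r (f.1 x) (f.1 y)) ↔ x ≤ y
    constructor
    · rintro (h | h)
      · exact le_of_eq (f.1.injective (Fin.ext h))
      · have := h.2 (f.1 x).2 (f.1 y).2
        simp only [Fin.eta, Equiv.symm_apply_apply] at this
        exact this.le
    · intro h
      rcases eq_or_lt_of_le h with h1 | h1
      · left; rw [h1]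
      · right
        refine ⟨?_, fun hi hj => by simpa using h1⟩
        have h2 := f.2 h
        have h3 : f.1 x ≠ f.1 y := fun h4 => h1.ne (f.1.injective h4)
        exact lt_of_le_of_ne h2 (fun h5 => h3 (Fin.ext h5))

end lab

variable {K : ℕ}

/-- an antichain of the poset on `[0, n)` as a set of numbers -/
def AntiN (R : NP K) (n : ℕ) (A : Finset ℕ) : Prop :=
  A ⊆ range n ∧ ∀ u ∈ A, ∀ v ∈ A, ¬ R.r u v

lemma antiN_of {R : NP K} {n : ℕ} (s : Finset (Win R 0 n)) (hs : IsAntichain (· ≤ ·) (s : Set (Win R 0 n))) :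
    ∃ A : Finset ℕ, AntiN R n A ∧ A.card = s.card := by
  classical
  refine ⟨s.image Win.val, ⟨?_, ?_⟩, card_image_of_injective _ (fun x y h => Win.eq h)⟩
  · intro u hu
    obtain ⟨x, _, rfl⟩ := mem_image.1 hu
    exact mem_range.2 (win_hi x)
  · intro u hu v hv huv
    obtain ⟨x, hx, rfl⟩ := mem_image.1 hu
    obtain ⟨y, hy, rfl⟩ := mem_image.1 hv
    have hne : x ≠ y := fun h => by
      rw [h] at huv
      exact absurd (R.lt huv) (lt_irrefl _)
    exact hs hx hy hne (Or.inr huv)

lemma of_antiN {R : NP K} {n : ℕ} {A : Finset ℕ} (hA : AntiN R n A) :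
    ∃ s : Finset (Win R 0 n), IsAntichain (· ≤ ·) (s : Set (Win R 0 n)) ∧ s.card = A.card := by
  classical
  refine ⟨univ.filter (fun x => x.val ∈ A), ?_, ?_⟩
  · intro x hx y hy hne h
    have hx1 : x.val ∈ A := (mem_filter.1 (mem_coe.1 hx)).2
    have hy1 : y.val ∈ A := (mem_filter.1 (mem_coe.1 hy)).2
    rcases h with h | h
    · exact hne (Win.eq h)
    · exact hA.2 _ hx1 _ hy1 h
  · apply card_bij (fun x _ => x.val)
    · intro x hx; exact (mem_filter.1 hx).2
    · intro x _ y _ h; exact Win.eq h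
    · intro u hu
      have := mem_range.1 (hA.1 hu)
      exact ⟨⟨u, by rw [mem_Ico]; omega⟩, mem_filter.2 ⟨mem_univ _, hu⟩, rfl⟩

/-- antichains are short -/
lemma AntiN.near {R : NP K} {n : ℕ} {A : Finset ℕ} (hA : AntiN R n A) {u v : ℕ} (hu : u ∈ A)
    (hv : v ∈ A) : v < u + K := by
  by_contra h
  exact hA.2 u hu v hv (R.loc (by omega))

/-- antichains of a locally embedded poset -/
lemma Emb.anti {ρ : ℕ} (hρ : K ≤ ρ) {R' R : NP K} {n' n : ℕ} (h : Emb ρ R' n' R n) {A : Finset ℕ}
    (hA : AntiN R' n' A) : ∃ B, AntiN R n B ∧ B.card = A.card := by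
  classical
  have hK := R.pos
  rcases A.eq_empty_or_nonempty with h0 | h0
  · exact ⟨∅, ⟨by simp, by simp⟩, by rw [h0]⟩
  have ht := A.min'_mem h0
  have htn := mem_range.1 (hA.1 ht)
  obtain ⟨c, hc⟩ := h _ htn
  have hw : ∀ u ∈ A, A.min' h0 ≤ u ∧ u < A.min' h0 + K ∧ u < n' := fun u hu =>
    ⟨A.min'_le u hu, hA.near ht hu, mem_range.1 (hA.1 hu)⟩
  refine ⟨A.image (· + c), ⟨?_, ?_⟩, card_image_of_injective _ (fun x y h => by simpa using h)⟩
  · intro v hv
    obtain ⟨u, hu, rfl⟩ := mem_image.1 hv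
    obtain ⟨h1, h2, h3⟩ := hw u hu
    exact mem_range.2 (hc.lt htn h3 (by omega) (by omega))
  · intro u' hu' v' hv' hr
    obtain ⟨u, hu, rfl⟩ := mem_image.1 hu'
    obtain ⟨v, hv, rfl⟩ := mem_image.1 hv'
    obtain ⟨h1, h2, h3⟩ := hw u hu
    obtain ⟨h4, h5, h6⟩ := hw v hv
    exact hA.2 u hu v hv ((hc.eqv u v (by omega) (by omega) h3 (by omega) (by omega) h6).2 hr)

/-- **Small posets.**  A poset in which every element is incomparable to fewer than `k` elements,
with an antichain of size `w ≥ 1` and all antichains of size at most `w'`, can be replaced by a small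
one of almost the same balance constant. -/
theorem exists_small {P : Type} [Fintype P] [PartialOrder P] {k w w' : ℕ} (hk : Thn P k)
    (hw : 1 ≤ w) (s : Finset P) (hs : IsAntichain (· ≤ ·) (s : Set P)) (hsw : s.card = w)
    (hP : ∀ s : Finset P, IsAntichain (· ≤ ·) (s : Set P) → s.card ≤ w') (j : ℕ) :
    ∃ (Q : Type) (_ : Fintype Q) (_ : PartialOrder Q),
      Fintype.card Q ≤ 2 * k + 2 * (2 ^ (2 * k * (2 * (2 * (2 * k) * j + 2 * (2 * k)))) +
        2 * (2 * (2 * k) * j + 2 * (2 * k))) ∧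
      (∃ s : Finset Q, IsAntichain (· ≤ ·) (s : Set Q) ∧ s.card = w) ∧
      (∀ s : Finset Q, IsAntichain (· ≤ ·) (s : Set Q) → s.card ≤ w') ∧
      balance Q ≤ balance P + 4 * (1 - th (2 * k)) ^ j := by
  classical
  obtain ⟨x0, hx0⟩ := card_pos.1 (show 0 < s.card by omega)
  have hne : Nonempty P := ⟨x0⟩
  have hk1 : 1 ≤ k := by have := hk x0; omega
  set n := Fintype.card P with hn
  obtain ⟨f⟩ := LEn_nonempty (P := P) hn.symm
  set R := lab hk hk1 f with hR
  set e := labIso hk hk1 f with he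
  set ρ := 2 * (2 * k) * j + 2 * (2 * k) with hρ
  -- the antichain
  obtain ⟨A, hA, hAc⟩ := antiN_of (R := R) (n := n) (s.map e.toEquiv.toEmbedding) (by
    intro x hx y hy hxy h
    rw [mem_coe, mem_map] at hx hy
    obtain ⟨x', hx', rfl⟩ := hx
    obtain ⟨y', hy', rfl⟩ := hy
    exact hs hx' hy' (fun h' => hxy (by rw [h'])) (e.le_iff_le.1 h))
  rw [card_map, hsw] at hAc
  have hA0 : A.Nonempty := card_pos.1 (by omega)
  set a := A.min' hA0 with ha
  have haA := A.min'_mem hA0
  have han := mem_range.1 (hA.1 haA)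
  set m := min (2 * k) (n - a) with hm
  obtain ⟨R', n', a', g1, g2, g3, g4⟩ := pump (ρ := ρ) (by omega) n R a m (by omega)
  have hmk : m ≤ 2 * k := min_le_left _ _
  have hwin : ∀ u ∈ A, a ≤ u ∧ u - a < m := fun u hu => by
    have h1 := A.min'_le u hu
    have h2 := hA.near haA hu
    have h3 := mem_range.1 (hA.1 hu)
    constructor
    · exact h1
    · omega
  have hm0 : 0 < m := by have := (hwin _ haA).2; omega
  refine ⟨Win R' 0 n', inferInstance, inferInstance, ?_, ?_, ?_, ?_⟩
  · rw [card_win, Nat.sub_zero]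
    omega
  · have hB : AntiN R' n' (A.image (fun u => a' + (u - a))) := by
      constructor
      · intro v hv
        obtain ⟨u, hu, rfl⟩ := mem_image.1 hv
        have := hwin u hu
        rw [mem_range]; omega
      · intro u' hu' v' hv' hr
        obtain ⟨u, hu, rfl⟩ := mem_image.1 hu'
        obtain ⟨v, hv, rfl⟩ := mem_image.1 hv'
        have h1 := hwin u hu
        have h2 := hwin v hv
        have h3 := (g4 _ _ h1.2 h2.2).1 hr
        rw [show a + (u - a) = u by omega, show a + (v - a) = v by omega] at h3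
        exact hA.2 u hu v hv h3
    obtain ⟨t, ht, htc⟩ := of_antiN hB
    refine ⟨t, ht, ?_⟩
    rw [htc, card_image_of_injOn, hAc]
    intro u hu v hv huv
    have h1 := hwin u hu
    have h2 := hwin v hv
    simp only at huv
    omega
  · intro t ht
    obtain ⟨B, hB, hBc⟩ := antiN_of t ht
    obtain ⟨C, hC, hCc⟩ := g2.anti (by omega) hB
    obtain ⟨t', ht', htc'⟩ := of_antiN hC
    have h1 := hP (t'.map e.symm.toEquiv.toEmbedding) (by
      intro x hx y hy hxy h
      rw [mem_coe, mem_map] at hx hy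
      obtain ⟨x', hx', rfl⟩ := hx
      obtain ⟨y', hy', rfl⟩ := hy
      exact ht' hx' hy' (fun h' => hxy (by rw [h'])) (e.symm.le_iff_le.1 h))
    rw [card_map] at h1
    omega
  · have h1 := emb_balance (j := j) (ρ := ρ) le_rfl (by omega) g2
    have : Nonempty (Win R 0 n) := ⟨e x0⟩
    have h2 : balance (Win R 0 n) ≤ balance P := balance_iso e.symm
    linarith

end Pool.Agent.Q236.TP
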