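import Mathlib
import Pool.Agent.H34.L.Q236.TP.Lab

/-!
# Small posets with almost no larger balance constant: the size
-/

set_option autoImplicit false

open Finset

namespace Pool.Agent.Q236.TP

open Pool.Agent.H13R3.WB Pool.Agent.H931R3.Bal

/-- the exponent of the size bound -/
def cEx (k : ℕ) : ℕ := 24 * (2 * k) ^ (4 * k + 2)

lemma exists_j {K : ℕ} (hK : 2 ≤ K) {ε : ℝ} (hε : 0 < ε) (hε1 : ε ≤ 1) : ∃ j : ℕ,
    4 * (1 - th K) ^ j ≤ ε ∧
    ((K + 2 * (2 ^ (K * (2 * (2 * K * j + 2 * K))) + 2 * (2 * K * j + 2 * K)) : ℕ) : ℝ) ≤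
      (4 / ε) ^ (24 * K ^ (2 * K + 2)) := by
  have hK2 : (2 : ℝ) ≤ K := by exact_mod_cast hK
  have hK0 : (0 : ℝ) < K := by linarith
  set L := Real.log (4 / ε) with hL
  have h4 : 4 ≤ 4 / ε := by rw [le_div_iff₀ hε]; linarith
  have hL1 : 1 ≤ L := by
    rw [hL, Real.le_log_iff_exp_le (by positivity)]
    have := Real.exp_one_lt_d9
    linarith
  set M : ℝ := (K : ℝ) ^ (2 * K) with hM
  have hM1 : 1 ≤ M := one_le_pow₀ (by linarith)
  have hML : 1 ≤ M * L := one_le_mul_of_one_le_of_one_le hM1 hL1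
  set j := ⌈M * L⌉₊ with hj
  have hj1 : M * L ≤ j := Nat.le_ceil _
  have hj2 : (j : ℝ) < M * L + 1 := Nat.ceil_lt_add_one (by linarith)
  refine ⟨j, ?_, ?_⟩
  · have hth : th K = 1 / M := rfl
    have h1 : (1 - th K) ^ j ≤ Real.exp (-L) := by
      have h2 : 1 - th K ≤ Real.exp (-th K) := by
        have := Real.add_one_le_exp (-th K); linarith
      have h3 : 0 ≤ 1 - th K := by
        rw [hth, sub_nonneg, div_le_one (by linarith)]; exact hM1
      calc (1 - th K) ^ j ≤ Real.exp (-th K) ^ j := pow_le_pow_left₀ h3 h2 j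
        _ = Real.exp (-(th K * j)) := by rw [← Real.exp_nat_mul]; congr 1; ring
        _ ≤ Real.exp (-L) := by
          apply Real.exp_le_exp.2
          rw [hth]
          have : L ≤ 1 / M * j := by
            rw [one_div, ← div_eq_inv_mul, le_div_iff₀ (by linarith)]
            linarith
          linarith
    have h5 : Real.exp (-L) = ε / 4 := by
      rw [Real.exp_neg, hL, Real.exp_log (by positivity)]
      field_simp
    rw [h5] at h1
    linarith
  · set E := K * (2 * (2 * K * j + 2 * K)) with hE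
    have e1 : E = 4 * K ^ 2 * (j + 1) := by rw [hE]; ring
    have hEj : K ≤ E ∧ 2 * (2 * K * j + 2 * K) ≤ E ∧ 3 ≤ E := by
      refine ⟨?_, ?_, ?_⟩
      · rw [e1]; nlinarith [Nat.zero_le j, sq_nonneg K, Nat.zero_le (K ^ 2 * j)]
      · rw [hE]; nlinarith [Nat.zero_le (2 * (2 * K * j + 2 * K))]
      · rw [e1]; nlinarith [Nat.zero_le j, Nat.zero_le (K ^ 2 * j)]
    have hE2 : E < 2 ^ E := Nat.lt_two_pow_self
    have h1 : K + 2 * (2 ^ E + 2 * (2 * K * j + 2 * K)) ≤ 2 ^ (2 * E) := by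
      have : 8 * 2 ^ E ≤ 2 ^ (2 * E) := by
        calc 8 * 2 ^ E = 2 ^ (3 + E) := by rw [pow_add]; norm_num
          _ ≤ 2 ^ (2 * E) := Nat.pow_le_pow_right (by norm_num) (by omega)
      omega
    have h2 : ((K + 2 * (2 ^ E + 2 * (2 * K * j + 2 * K)) : ℕ) : ℝ) ≤ (2 : ℝ) ^ (2 * E) := by
      exact_mod_cast h1
    refine h2.trans ?_
    have h3 : (2 : ℝ) ^ (2 * E) = Real.exp ((2 * E : ℕ) * Real.log 2) := by
      rw [Real.exp_nat_mul, Real.exp_log (by norm_num)]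
    have h5 : (4 / ε) ^ (24 * K ^ (2 * K + 2)) =
        Real.exp ((24 * K ^ (2 * K + 2) : ℕ) * L) := by
      rw [Real.exp_nat_mul, hL, Real.exp_log (by positivity)]
    rw [h3, h5]
    apply Real.exp_le_exp.2
    have h6 : Real.log 2 ≤ 7 / 10 := by have := Real.log_two_lt_d9; linarith
    have h7 : ((2 * E : ℕ) : ℝ) = 8 * K ^ 2 * (j + 1) := by rw [e1]; push_cast; ring
    have h8 : ((24 * K ^ (2 * K + 2) : ℕ) : ℝ) = 24 * (M * K ^ 2) := by
      rw [hM, ← pow_add]; push_cast; ring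
    rw [h7, h8]
    have h9 : (j : ℝ) + 1 ≤ 3 * (M * L) := by linarith
    have hK3 : 0 ≤ (K : ℝ) ^ 2 := by positivity
    calc 8 * (K : ℝ) ^ 2 * (j + 1) * Real.log 2 ≤ 8 * (K : ℝ) ^ 2 * (j + 1) * (7 / 10) :=
          mul_le_mul_of_nonneg_left h6 (by positivity)
      _ ≤ 8 * (K : ℝ) ^ 2 * (3 * (M * L)) * (7 / 10) := by
          apply mul_le_mul_of_nonneg_right _ (by norm_num)
          exact mul_le_mul_of_nonneg_left h9 (by positivity)
      _ ≤ 24 * (M * (K : ℝ) ^ 2) * L := by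
          have : 0 ≤ (K : ℝ) ^ 2 * (M * L) := by positivity
          nlinarith

/-- **Small posets**, with a bound for the size which is a power of `1 / ε`. -/
theorem small_eps {P : Type} [Fintype P] [PartialOrder P] {k w w' : ℕ} (hk : Thn P k)
    (hw : 1 ≤ w) (s : Finset P) (hs : IsAntichain (· ≤ ·) (s : Set P)) (hsw : s.card = w)
    (hP : ∀ s : Finset P, IsAntichain (· ≤ ·) (s : Set P) → s.card ≤ w') {ε : ℝ} (hε : 0 < ε)
    (hε1 : ε ≤ 1) :
    ∃ (Q : Type) (_ : Fintype Q) (_ : PartialOrder Q),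
      (Fintype.card Q : ℝ) ≤ (4 / ε) ^ cEx k ∧
      (∃ s : Finset Q, IsAntichain (· ≤ ·) (s : Set Q) ∧ s.card = w) ∧
      (∀ s : Finset Q, IsAntichain (· ≤ ·) (s : Set Q) → s.card ≤ w') ∧
      balance Q ≤ balance P + ε := by
  obtain ⟨x0, hx0⟩ := card_pos.1 (show 0 < s.card by omega)
  have hk1 : 1 ≤ k := by have := hk x0; omega
  obtain ⟨j, h1, h2⟩ := exists_j (K := 2 * k) (by omega) hε hε1
  obtain ⟨Q, i1, i2, h3, h4, h5, h6⟩ := exists_small hk hw s hs hsw hP j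
  refine ⟨Q, i1, i2, ?_, h4, h5, by linarith⟩
  have e : cEx k = 24 * (2 * k) ^ (2 * (2 * k) + 2) := by unfold cEx; congr 2; ring
  rw [e]
  exact le_trans (by exact_mod_cast h3) h2

end Pool.Agent.Q236.TP
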